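import Pool.Agent.Helper63.P705.NR.Goals

/-! MP_705522_gt: near `p = 2`, goal (K1). -/

namespace Pool.Agent.Helper49.NR

open Pool.Agent.Helper63.P705.NR
open Pool.Agent.Helper53.PT
open Set

theorem one_sub_sum_le {ι : Type*} (S : Finset ι) (x : ι → ℝ) (h0 : ∀ i ∈ S, 0 ≤ x i)
    (h1 : ∀ i ∈ S, x i ≤ 1) : 1 - ∑ i ∈ S, x i ≤ ∏ i ∈ S, (1 - x i) := by
  classical
  induction S using Finset.induction_on with
  | empty => simp
  | insert i S hi ih =>
    have ih' := ih (fun j hj => h0 j (Finset.mem_insert_of_mem hj))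
      (fun j hj => h1 j (Finset.mem_insert_of_mem hj))
    rw [Finset.sum_insert hi, Finset.prod_insert hi]
    have hxi0 := h0 i (Finset.mem_insert_self i S)
    have hxi1 := h1 i (Finset.mem_insert_self i S)
    have hs : 0 ≤ ∑ j ∈ S, x j := Finset.sum_nonneg fun j hj => h0 j (Finset.mem_insert_of_mem hj)
    have h2 : (1 - x i) * (1 - ∑ j ∈ S, x j) ≤ (1 - x i) * ∏ j ∈ S, (1 - x j) :=
      mul_le_mul_of_nonneg_left ih' (by linarith)
    nlinarith [mul_nonneg hxi0 hs]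

theorem exp_144 : Real.exp 1.44 ≤ 4.26 := by
  have h1 := Real.exp_bound' (x := 0.36) (by norm_num) (by norm_num) (n := 5) (by norm_num)
  have h2 : Real.exp 1.44 = Real.exp 0.36 ^ 4 := by
    rw [← Real.exp_nat_mul]
    norm_num
  have h3 : Real.exp 0.36 ≤ 1.4335 := by
    refine h1.trans ?_
    norm_num [Finset.sum_range_succ, Nat.factorial]
  rw [h2]
  calc Real.exp 0.36 ^ 4 ≤ 1.4335 ^ 4 := pow_le_pow_left₀ (Real.exp_pos _).le h3 4
    _ ≤ 4.26 := by norm_num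

theorem exp_conv {c t : ℝ} (ht0 : 0 ≤ t) (ht1 : t ≤ 1 / 2) :
    Real.exp (t * c) - 1 ≤ 2 * t * (Real.exp (c / 2) - 1) := by
  have h := convexOn_exp.2 (Set.mem_univ (0 : ℝ)) (Set.mem_univ (c / 2))
    (by linarith : 0 ≤ 1 - 2 * t) (by linarith : 0 ≤ 2 * t) (by ring)
  simp only [smul_eq_mul, mul_zero, zero_add, Real.exp_zero, mul_one] at h
  have e : 2 * t * (c / 2) = t * c := by ring
  rw [e] at h
  linarith

/-- the exact form of the integrand -/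
theorem KJ_eq (θ : ℝ) {n : ℕ} (t : Fin n → ℝ) (hs : ∑ l, t l = 1) {i j : Fin n} (hne : j ≠ i) (ξ : ℝ) :
    KJ θ t i j ξ = Real.exp (-(ξ ^ 2) / 2) *
      (((GG θ (t i * ξ ^ 2) * Real.exp (t i * ξ ^ 2 / 2)) * (f0 θ (t j * ξ ^ 2) * Real.exp (t j * ξ ^ 2 / 2)) -
        (f0 θ (t i * ξ ^ 2) * Real.exp (t i * ξ ^ 2 / 2)) * (GG θ (t j * ξ ^ 2) * Real.exp (t j * ξ ^ 2 / 2))) *
      ∏ l ∈ (Finset.univ.erase i).erase j, (f0 θ (t l * ξ ^ 2) * Real.exp (t l * ξ ^ 2 / 2))) := by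
  rw [Finset.prod_mul_distrib, ← Real.exp_sum]
  have h1 : ∑ l ∈ (Finset.univ.erase i).erase j, t l * ξ ^ 2 / 2 = (1 - t i - t j) * ξ ^ 2 / 2 := by
    rw [← Finset.sum_div, ← Finset.sum_mul]
    have h2 := Finset.add_sum_erase Finset.univ t (Finset.mem_univ i)
    have h3 := Finset.add_sum_erase (Finset.univ.erase i) t (Finset.mem_erase.2 ⟨hne, Finset.mem_univ j⟩)
    congr 2
    linarith
  rw [h1]
  unfold KJ
  have h4 : Real.exp (-(ξ ^ 2) / 2) * (Real.exp (t i * ξ ^ 2 / 2) * Real.exp (t j * ξ ^ 2 / 2) *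
      Real.exp ((1 - t i - t j) * ξ ^ 2 / 2)) = 1 := by
    rw [← Real.exp_add, ← Real.exp_add, ← Real.exp_add]
    have h5 : -(ξ ^ 2) / 2 + (t i * ξ ^ 2 / 2 + t j * ξ ^ 2 / 2 + (1 - t i - t j) * ξ ^ 2 / 2) = 0 := by
      ring
    rw [h5, Real.exp_zero]
  linear_combination (-((GG θ (t i * ξ ^ 2) * f0 θ (t j * ξ ^ 2) - f0 θ (t i * ξ ^ 2) * GG θ (t j * ξ ^ 2)) *
    ∏ l ∈ (Finset.univ.erase i).erase j, f0 θ (t l * ξ ^ 2))) * h4

theorem gK1 : Pool.Agent.Helper63.P705.NR.GK1 := by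
  intro θ hN n t ht i j hi hj hij ξ hξ
  have hne : j ≠ i := by
    rintro rfl
    exact lt_irrefl _ hij
  have hx2 : 0 ≤ ξ ^ 2 := sq_nonneg ξ
  have hs0 : ∀ l, 0 ≤ t l * ξ ^ 2 := fun l => mul_nonneg (ht.1 l) hx2
  have hle : t j * ξ ^ 2 ≤ t i * ξ ^ 2 := mul_le_mul_of_nonneg_right hij.le hx2
  have hg := hN.gmono (Set.mem_Ici.2 (hs0 j)) (Set.mem_Ici.2 (hs0 i)) hle
  have hh := hN.eanti (Set.mem_Ici.2 (hs0 j)) (Set.mem_Ici.2 (hs0 i)) hle
  simp only at hg hh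
  have hgj : 0 ≤ GG θ (t j * ξ ^ 2) * Real.exp (t j * ξ ^ 2 / 2) :=
    mul_nonneg (hN.gnn _ (hs0 j)) (Real.exp_pos _).le
  -- main inequality
  have key : (∀ l, l ≠ i → t l * ξ ^ 2 ≤ 6.76) →
      Real.exp (-(ξ ^ 2) / 2) * ((GG θ (t i * ξ ^ 2) * Real.exp (t i * ξ ^ 2 / 2) -
        GG θ (t j * ξ ^ 2) * Real.exp (t j * ξ ^ 2 / 2)) *
        ∏ l ∈ Finset.univ.erase i, (f0 θ (t l * ξ ^ 2) * Real.exp (t l * ξ ^ 2 / 2))) ≤ KJ θ t i j ξ := by
    intro h676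
    have hpos : ∀ l, l ≠ i → 0 < f0 θ (t l * ξ ^ 2) * Real.exp (t l * ξ ^ 2 / 2) := fun l hl =>
      mul_pos (hN.ppos _ (hs0 l) (h676 l hl)) (Real.exp_pos _)
    have hP : 0 ≤ ∏ l ∈ (Finset.univ.erase i).erase j, (f0 θ (t l * ξ ^ 2) * Real.exp (t l * ξ ^ 2 / 2)) := by
      refine Finset.prod_nonneg fun l hl => (hpos l ?_).le
      exact (Finset.mem_erase.1 (Finset.mem_of_mem_erase hl)).1
    rw [KJ_eq θ t ht.2 hne ξ, ← Finset.mul_prod_erase (Finset.univ.erase i) _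
      (Finset.mem_erase.2 ⟨hne, Finset.mem_univ j⟩), ← mul_assoc (_ - _)]
    refine mul_le_mul_of_nonneg_left (mul_le_mul_of_nonneg_right ?_ hP) (Real.exp_pos _).le
    have := mul_le_mul_of_nonneg_right hh hgj
    nlinarith
  constructor
  · intro h676
    refine le_trans ?_ (key h676)
    refine mul_nonneg (Real.exp_pos _).le (mul_nonneg (sub_nonneg.2 hg) (Finset.prod_nonneg fun l hl => ?_))
    exact (mul_pos (hN.ppos _ (hs0 l) (h676 l (Finset.mem_erase.1 hl).1)) (Real.exp_pos _)).le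
  · intro h24
    have hsum := Finset.add_sum_erase Finset.univ t (Finset.mem_univ i)
    rw [ht.2] at hsum
    have hξ2 : ξ ^ 2 ≤ 5.76 := by nlinarith
    have hrest0 : 0 ≤ ∑ l ∈ Finset.univ.erase i, t l := Finset.sum_nonneg fun l _ => ht.1 l
    have hti1 : t i ≤ 1 := by linarith
    have hhalf : ∀ l, l ≠ i → t l ≤ 1 / 2 := by
      intro l hl
      have h1 : t l ≤ ∑ l ∈ Finset.univ.erase i, t l :=
        Finset.single_le_sum (f := t) (fun l _ => ht.1 l) (Finset.mem_erase.2 ⟨hl, Finset.mem_univ l⟩)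
      have h2 := hi l
      linarith
    have h288 : ∀ l, l ≠ i → t l * ξ ^ 2 ≤ 2.88 := by
      intro l hl
      have := hhalf l hl
      nlinarith
    have h676 : ∀ l, l ≠ i → t l * ξ ^ 2 ≤ 6.76 := fun l hl => (h288 l hl).trans (by norm_num)
    refine le_trans ?_ (key h676)
    have hsa : t i * ξ ^ 2 ≤ 5.76 := by nlinarith [ht.1 i]
    have hL := hN.glip (t i * ξ ^ 2) (t j * ξ ^ 2) (hs0 j) hle hsa
    have hE : Real.exp (ξ ^ 2 / 2 / 2) ≤ 4.26 := by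
      refine (Real.exp_le_exp.2 ?_).trans exp_144
      linarith
    have hx : ∀ l, l ≠ i → 0.032 * (Real.exp (t l * ξ ^ 2 / 2) - 1) ≤ 0.064 * t l * 3.26 := by
      intro l hl
      have h1 := exp_conv (c := ξ ^ 2 / 2) (ht.1 l) (hhalf l hl)
      have e : t l * (ξ ^ 2 / 2) = t l * ξ ^ 2 / 2 := by ring
      rw [e] at h1
      have h2 : 2 * t l * (Real.exp (ξ ^ 2 / 2 / 2) - 1) ≤ 2 * t l * 3.26 :=
        mul_le_mul_of_nonneg_left (by linarith) (by linarith [ht.1 l])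
      linarith
    have hx0 : ∀ l, 0 ≤ 0.032 * (Real.exp (t l * ξ ^ 2 / 2) - 1) := by
      intro l
      have : 1 ≤ Real.exp (t l * ξ ^ 2 / 2) := Real.one_le_exp (by linarith [hs0 l])
      linarith
    have hprod : 0.79 ≤ ∏ l ∈ Finset.univ.erase i, (f0 θ (t l * ξ ^ 2) * Real.exp (t l * ξ ^ 2 / 2)) := by
      have h1 : ∏ l ∈ Finset.univ.erase i, (1 - 0.032 * (Real.exp (t l * ξ ^ 2 / 2) - 1)) ≤
          ∏ l ∈ Finset.univ.erase i, (f0 θ (t l * ξ ^ 2) * Real.exp (t l * ξ ^ 2 / 2)) := by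
        refine Finset.prod_le_prod (fun l hl => ?_) fun l _ => hN.elow _ (hs0 l)
        have hli := (Finset.mem_erase.1 hl).1
        have h2 := hx l hli
        have h3 := hhalf l hli
        linarith
      refine le_trans ?_ h1
      refine le_trans ?_ (one_sub_sum_le (Finset.univ.erase i)
        (fun l => 0.032 * (Real.exp (t l * ξ ^ 2 / 2) - 1)) (fun l _ => hx0 l) fun l hl => ?_)
      · have h4 : ∑ l ∈ Finset.univ.erase i, 0.032 * (Real.exp (t l * ξ ^ 2 / 2) - 1) ≤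
            ∑ l ∈ Finset.univ.erase i, 0.064 * t l * 3.26 :=
          Finset.sum_le_sum fun l hl => hx l (Finset.mem_erase.1 hl).1
        have h5 : ∑ l ∈ Finset.univ.erase i, 0.064 * t l * 3.26 =
            0.064 * (∑ l ∈ Finset.univ.erase i, t l) * 3.26 := by
          rw [Finset.mul_sum, Finset.sum_mul]
        rw [h5] at h4
        have h6 : ∑ l ∈ Finset.univ.erase i, t l ≤ 1 := by linarith [ht.1 i]
        linarith
      · have hli := (Finset.mem_erase.1 hl).1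
        have h2 := hx l hli
        have h3 := hhalf l hli
        linarith
    have h7 : (t i - t j) * 0.92 * ξ ^ 2 ≤ GG θ (t i * ξ ^ 2) * Real.exp (t i * ξ ^ 2 / 2) -
        GG θ (t j * ξ ^ 2) * Real.exp (t j * ξ ^ 2 / 2) := by
      refine le_trans (le_of_eq ?_) hL
      ring
    have h8 : 0 ≤ (t i - t j) * 0.92 * ξ ^ 2 := by
      have : 0 ≤ t i - t j := by linarith
      positivity
    have h9 : (t i - t j) * 0.92 * ξ ^ 2 * 0.79 ≤
        (GG θ (t i * ξ ^ 2) * Real.exp (t i * ξ ^ 2 / 2) -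
          GG θ (t j * ξ ^ 2) * Real.exp (t j * ξ ^ 2 / 2)) *
        ∏ l ∈ Finset.univ.erase i, (f0 θ (t l * ξ ^ 2) * Real.exp (t l * ξ ^ 2 / 2)) :=
      mul_le_mul h7 hprod (by norm_num) (h8.trans h7)
    calc (t i - t j) * (0.92 * 0.79) * (ξ ^ 2 * Real.exp (-(ξ ^ 2) / 2))
        = Real.exp (-(ξ ^ 2) / 2) * ((t i - t j) * 0.92 * ξ ^ 2 * 0.79) := by ring
      _ ≤ _ := mul_le_mul_of_nonneg_left h9 (Real.exp_pos _).le

end Pool.Agent.Helper49.NR
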